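import Pool.Agent.helper53.SP4.Spec

set_option autoImplicit false

namespace Pool.Agent.SP4

open Pool.Agent.GS

section
variable {F : Type} [Field F] [CharP F 2]

theorem S4B_two : (2 : F) = 0 := CharTwo.two_eq_zero

theorem S4B_vv (v : Fin 4 → F) : B v v = 0 := by
  unfold B
  linear_combination (v 0 * v 3 + v 1 * v 2) * (S4B_two (F := F))

omit [CharP F 2] in
theorem S4B_symm (u v : Fin 4 → F) : B u v = B v u := by
  unfold B
  ring

omit [CharP F 2] in
theorem S4B_nd (v : Fin 4 → F) (h : ∀ w, B v w = 0) : v = 0 := by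
  have h0 := h (Pi.single 0 1)
  have h1 := h (Pi.single 1 1)
  have h2 := h (Pi.single 2 1)
  have h3 := h (Pi.single 3 1)
  simp [B] at h0 h1 h2 h3
  funext i
  fin_cases i
  · simpa using h3
  · simpa using h2
  · simpa using h1
  · simpa using h0

omit [CharP F 2] in
theorem S4B_lin (u v w : Fin 4 → F) (c : F) : B (u + c • v) w = B u w + c * B v w := by
  simp only [B, Pi.add_apply, Pi.smul_apply, smul_eq_mul]
  ring

/-- the functional `B v` -/
def S4B_f (v : Fin 4 → F) : (Fin 4 → F) →ₗ[F] F where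
  toFun := fun w => B v w
  map_add' := fun w w' => by
    simp only [B, Pi.add_apply]
    ring
  map_smul' := fun c w => by
    simp only [B, Pi.smul_apply, smul_eq_mul, RingHom.id_apply]
    ring

omit [CharP F 2] in
theorem S4B_f_apply (v w : Fin 4 → F) : S4B_f v w = B v w := rfl

theorem S4B_mk (N : (Fin 4 → F) →ₗ[F] (Fin 4 → F)) (h1 : ∀ w, N (N w) = 0)
    (h2 : ∀ u w, B (N u) w = B u (N w)) :
    ∃ t : SG F, (∀ w, (t : (Fin 4 → F) ≃ₗ[F] (Fin 4 → F)) w = w + N w) ∧ t * t = 1 := by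
  have h20 : (2 : F) = 0 := S4B_two
  have hadd : ∀ x : Fin 4 → F, x + x = 0 := by
    intro x
    rw [← two_smul F x, h20, zero_smul]
  have hinv : Function.Involutive (LinearMap.id + N : (Fin 4 → F) →ₗ[F] (Fin 4 → F)) := by
    intro w
    simp only [LinearMap.add_apply, LinearMap.id_apply, map_add, h1, add_zero]
    rw [add_assoc, hadd, add_zero]
  set g : (Fin 4 → F) ≃ₗ[F] (Fin 4 → F) := LinearEquiv.ofInvolutive (LinearMap.id + N) hinv with hg
  have hgw : ∀ w, g w = w + N w := fun w => rfl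
  have hmem : g ∈ Sp F := by
    intro u w
    rw [hgw, hgw]
    have e1 : B (u + N u) (w + N w) = B u w + B u (N w) + (B (N u) w + B (N u) (N w)) := by
      simp only [B, Pi.add_apply]
      ring
    have e2 : B (N u) (N w) = 0 := by
      rw [h2, h1]
      simp [B]
    rw [e1, e2, h2 u w, add_zero, add_assoc]
    have e3 : B u (N w) + B u (N w) = 0 := by
      linear_combination B u (N w) * h20
    rw [e3, add_zero]
  refine ⟨⟨g, hmem⟩, hgw, ?_⟩
  apply Subtype.ext
  apply LinearEquiv.ext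
  intro w
  exact hinv w

theorem S4B_exT (v : Fin 4 → F) : ∃ t : SG F, IsT v t ∧ t * t = 1 := by
  obtain ⟨t, h1, h2⟩ := S4B_mk ((S4B_f v).smulRight v) (by
    intro w
    simp only [LinearMap.smulRight_apply, map_smul, S4B_f_apply, S4B_vv,
      zero_smul, smul_zero]) (by
    intro u w
    simp only [LinearMap.smulRight_apply, S4B_f_apply, B, Pi.smul_apply, smul_eq_mul]
    ring)
  exact ⟨t, h1, h2⟩

theorem S4B_exA (a b : Fin 4 → F) (hab : B a b = 0) : ∃ t : SG F, IsA a b t ∧ t * t = 1 := by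
  have hba : B b a = 0 := by rw [S4B_symm, hab]
  obtain ⟨t, h1, h2⟩ := S4B_mk ((S4B_f b).smulRight a + (S4B_f a).smulRight b) (by
    intro w
    simp only [LinearMap.add_apply, LinearMap.smulRight_apply, map_add, map_smul, S4B_f_apply, S4B_vv,
      hab, hba, zero_smul, add_zero, smul_zero]) (by
    intro u w
    simp only [LinearMap.add_apply, LinearMap.smulRight_apply, S4B_f_apply, B, Pi.add_apply,
      Pi.smul_apply, smul_eq_mul]
    ring)
  exact ⟨t, h1, h2⟩

theorem S4B_exC (a b : Fin 4 → F) (hab : B a b = 0) : ∃ t : SG F, IsC2 a b t ∧ t * t = 1 := by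
  have hba : B b a = 0 := by rw [S4B_symm, hab]
  obtain ⟨t, h1, h2⟩ := S4B_mk ((S4B_f a).smulRight a + (S4B_f b).smulRight b) (by
    intro w
    simp only [LinearMap.add_apply, LinearMap.smulRight_apply, map_add, map_smul, S4B_f_apply, S4B_vv,
      hab, hba, zero_smul, add_zero, smul_zero]) (by
    intro u w
    simp only [LinearMap.add_apply, LinearMap.smulRight_apply, S4B_f_apply, B, Pi.add_apply,
      Pi.smul_apply, smul_eq_mul]
    ring)
  exact ⟨t, h1, h2⟩

omit [CharP F 2] in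
theorem S4B_conj (g t : SG F) (w : Fin 4 → F) :
    ((g * t * g⁻¹ : SG F) : (Fin 4 → F) ≃ₗ[F] (Fin 4 → F)) w =
      (g : (Fin 4 → F) ≃ₗ[F] (Fin 4 → F)) ((t : (Fin 4 → F) ≃ₗ[F] (Fin 4 → F))
        (((g⁻¹ : SG F) : (Fin 4 → F) ≃ₗ[F] (Fin 4 → F)) w)) := rfl

omit [CharP F 2] in
theorem S4B_ginv (g : SG F) (w : Fin 4 → F) :
    (g : (Fin 4 → F) ≃ₗ[F] (Fin 4 → F)) (((g⁻¹ : SG F) : (Fin 4 → F) ≃ₗ[F] (Fin 4 → F)) w) = w :=
  (g : (Fin 4 → F) ≃ₗ[F] (Fin 4 → F)).apply_symm_apply w

omit [CharP F 2] in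
theorem S4B_adj (g : SG F) (a w : Fin 4 → F) :
    B a (((g⁻¹ : SG F) : (Fin 4 → F) ≃ₗ[F] (Fin 4 → F)) w) = B ((g : (Fin 4 → F) ≃ₗ[F] (Fin 4 → F)) a) w := by
  have h := g.2 a (((g⁻¹ : SG F) : (Fin 4 → F) ≃ₗ[F] (Fin 4 → F)) w)
  rw [S4B_ginv] at h
  exact h.symm

omit [CharP F 2] in
theorem S4B_cT (g t : SG F) (a : Fin 4 → F) (h : IsT a t) :
    IsT ((g : (Fin 4 → F) ≃ₗ[F] (Fin 4 → F)) a) (g * t * g⁻¹) := by
  intro w
  rw [S4B_conj, h, map_add, map_smul, S4B_ginv, S4B_adj]

omit [CharP F 2] in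
theorem S4B_cA (g t : SG F) (a b : Fin 4 → F) (h : IsA a b t) :
    IsA ((g : (Fin 4 → F) ≃ₗ[F] (Fin 4 → F)) a) ((g : (Fin 4 → F) ≃ₗ[F] (Fin 4 → F)) b) (g * t * g⁻¹) := by
  intro w
  rw [S4B_conj, h, map_add, map_add, map_smul, map_smul, S4B_ginv, S4B_adj, S4B_adj]

omit [CharP F 2] in
theorem S4B_cC (g t : SG F) (a b : Fin 4 → F) (h : IsC2 a b t) :
    IsC2 ((g : (Fin 4 → F) ≃ₗ[F] (Fin 4 → F)) a) ((g : (Fin 4 → F) ≃ₗ[F] (Fin 4 → F)) b) (g * t * g⁻¹) := by
  intro w
  rw [S4B_conj, h, map_add, map_add, map_smul, map_smul, S4B_ginv, S4B_adj, S4B_adj]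

omit [CharP F 2] in
theorem S4B_ext {t t' : SG F} (h : ∀ w, (t : (Fin 4 → F) ≃ₗ[F] (Fin 4 → F)) w = (t' : (Fin 4 → F) ≃ₗ[F] (Fin 4 → F)) w) :
    t = t' := Subtype.ext (LinearEquiv.ext h)

omit [CharP F 2] in
theorem S4B_ne {v : Fin 4 → F} (hv : v ≠ 0) : ∃ w, B v w ≠ 0 := by
  by_contra h
  push Not at h
  exact hv (S4B_nd v h)

theorem S4B_inj (v v' : Fin 4 → F) (t : SG F) (h : IsT v t) (h' : IsT v' t) : v = v' := by
  have key : ∀ w, B v w • v = B v' w • v' := by
    intro w
    have := (h w).symm.trans (h' w)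
    exact add_left_cancel this
  by_cases hv : v = 0
  · by_cases hv' : v' = 0
    · rw [hv, hv']
    · obtain ⟨w, hw⟩ := S4B_ne hv'
      have h1 := key w
      rw [hv, smul_zero] at h1
      have h2 := (smul_eq_zero.1 h1.symm).resolve_left hw
      exact absurd h2 hv'
  · obtain ⟨w, hw⟩ := S4B_ne hv
    have h1 := key w
    have h2 : v = (B v' w / B v w) • v' := by
      rw [div_eq_inv_mul, mul_smul, ← h1, smul_smul, inv_mul_cancel₀ hw, one_smul]
    set c := B v' w / B v w with hc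
    have hv'0 : v' ≠ 0 := by
      intro h3
      rw [h3, smul_zero] at h2
      exact hv h2
    obtain ⟨w', hw'⟩ := S4B_ne hv'0
    have h4 := key w'
    have h5 : B v w' = c * B v' w' := by
      rw [h2]
      simp only [B, Pi.smul_apply, smul_eq_mul]
      ring
    rw [h5] at h4
    nth_rewrite 1 [h2] at h4
    rw [smul_smul] at h4
    have h6 : (c * B v' w' * c - B v' w') • v' = 0 := by rw [sub_smul, h4, sub_self]
    have h7 := (smul_eq_zero.1 h6).resolve_right hv'0
    have h8 : (c - 1) * (c - 1) = 0 := by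
      have h9 : B v' w' * ((c - 1) * (c - 1)) = 0 := by
        linear_combination h7 - (B v' w' * (c - 1)) * (S4B_two (F := F))
      exact (mul_eq_zero.1 h9).resolve_left hw'
    have h10 : c = 1 := by
      have := mul_self_eq_zero.1 h8
      linear_combination this
    rw [h2, h10, one_smul]

theorem S4B_center (z : SG F) (hz : ∀ g : SG F, z * g = g * z) : z = 1 := by
  apply S4B_ext
  intro v
  obtain ⟨t, ht, -⟩ := S4B_exT v
  have h1 := S4B_cT z t v ht
  rw [hz t, mul_inv_cancel_right] at h1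
  exact S4B_inj _ _ t h1 ht

omit [CharP F 2] in
theorem S4B_plane (a b v : Fin 4 → F) (hP : Pl a b) (haa : B a a = 0) (hbb : B b b = 0) (hav : B a v = 0)
    (hbv : B b v = 0) : v ∈ Sn a b := by
  obtain ⟨hli, hab⟩ := hP
  set φ : (Fin 4 → F) →ₗ[F] F × F := (S4B_f a).prod (S4B_f b) with hφ
  have hsurj : Function.Surjective φ := by
    rw [← LinearMap.dualMap_injective_iff]
    rw [injective_iff_map_eq_zero]
    intro α hα
    have h1 : ∀ w, α (B a w, B b w) = 0 := by
      intro w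
      exact congrArg (fun f : Module.Dual F (Fin 4 → F) => f w) hα
    have h2 : ∀ x y : F, α (x, y) = x * α (1, 0) + y * α (0, 1) := by
      intro x y
      have e : ((x, y) : F × F) = x • (1, 0) + y • (0, 1) := by simp
      rw [e, map_add, map_smul, map_smul, smul_eq_mul, smul_eq_mul]
    have h3 : α (1, 0) • a + α (0, 1) • b = 0 := by
      apply S4B_nd
      intro w
      have h4 := h1 w
      rw [h2] at h4
      have e : B (α (1, 0) • a + α (0, 1) • b) w = B a w * α (1, 0) + B b w * α (0, 1) := by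
        simp only [B, Pi.add_apply, Pi.smul_apply, smul_eq_mul]
        ring
      rw [e, h4]
    have h5 := (LinearIndependent.pair_iff.1 hli) _ _ h3
    apply LinearMap.ext
    rintro ⟨x, y⟩
    rw [h2, h5.1, h5.2]
    simp
  have hker : Module.finrank F (LinearMap.ker φ) = 2 := by
    have h1 := LinearMap.finrank_range_add_finrank_ker φ
    rw [LinearMap.range_eq_top.2 hsurj, finrank_top, Module.finrank_prod, Module.finrank_self,
      Module.finrank_fintype_fun_eq_card, Fintype.card_fin] at h1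
    omega
  have hle : Sn a b ≤ LinearMap.ker φ := by
    unfold Sn
    rw [Submodule.span_le]
    intro x hx
    simp only [Set.mem_insert_iff, Set.mem_singleton_iff] at hx
    rcases hx with rfl | rfl
    · change φ x = 0
      exact Prod.ext (show B x x = 0 from haa) (show B b x = 0 from (S4B_symm b x).trans hab)
    · change φ x = 0
      exact Prod.ext (show B a x = 0 from hab) (show B x x = 0 from hbb)
  have hfin : Module.finrank F (Sn a b) = 2 := by
    have h1 := finrank_span_eq_card hli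
    rw [Fintype.card_fin] at h1
    have e : Set.range ![a, b] = {a, b} := by simp [Set.pair_comm]
    rw [e] at h1
    exact h1
  have heq := Submodule.eq_of_le_of_finrank_eq hle (by rw [hfin, hker])
  rw [heq]
  change φ v = 0
  exact Prod.ext (show B a v = 0 from hav) (show B b v = 0 from hbv)

end

theorem S4B : S4B_stmt := by
  intro F _ _
  refine ⟨S4B_vv, S4B_symm, S4B_nd, S4B_lin, S4B_exT, S4B_exA, S4B_exC, ?_, ?_, S4B_inj, S4B_center, ?_⟩
  · intro g t a b
    exact ⟨S4B_cT g t a, S4B_cA g t a b, S4B_cC g t a b⟩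
  · intro a b t t'
    exact ⟨fun h h' => S4B_ext fun w => (h w).trans (h' w).symm, fun h h' => S4B_ext fun w => (h w).trans (h' w).symm,
      fun h h' => S4B_ext fun w => (h w).trans (h' w).symm⟩
  · intro a b v hP hav hbv
    exact S4B_plane a b v hP (S4B_vv a) (S4B_vv b) hav hbv

end Pool.Agent.SP4
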